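import Pool.Agent.H66.L.S8.H789R2.AN.Min

set_option autoImplicit false

open Filter Topology Set Metric

namespace Pool.Agent.Y330.G

open Pool.Agent.H789R2.AN

variable {X : Type*} [MetricSpace X]

/-- Finite sets whose points are pairwise separated in times `0, …, n`. -/
def Sep (g : X ≃ₜ X) (δ : ℝ) (n : ℕ) (F : Finset X) : Prop :=
  ∀ y ∈ F, ∀ z ∈ F, y ≠ z → ∃ k ≤ n, δ < dist (g^[k] y) (g^[k] z)

theorem Sep.subset {g : X ≃ₜ X} {δ : ℝ} {n : ℕ} {F G : Finset X} (h : Sep g δ n F) (hG : G ⊆ F) :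
    Sep g δ n G := fun y hy z hz hne => h y (hG hy) z (hG hz) hne

theorem Sep.mono {g : X ≃ₜ X} {δ δ' : ℝ} {n n' : ℕ} {F : Finset X} (h : Sep g δ n F)
    (hδ : δ' ≤ δ) (hn : n ≤ n') : Sep g δ' n' F := fun y hy z hz hne => by
  obtain ⟨k, hk, h1⟩ := h y hy z hz hne
  exact ⟨k, hk.trans hn, hδ.trans_lt h1⟩

theorem net [CompactSpace X] {η : ℝ} (hη : 0 < η) : ∃ K : ℕ, 1 ≤ K ∧ ∀ F : Finset X,
    (∀ y ∈ F, ∀ z ∈ F, y ≠ z → η ≤ dist y z) → F.card ≤ K := by
  obtain ⟨t, -, ht, hcov⟩ := (isCompact_univ (X := X)).finite_cover_balls (half_pos hη)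
  have hch : ∀ x : X, ∃ p ∈ t, dist x p < η / 2 := by
    intro x
    have := hcov (mem_univ x)
    simpa using this
  choose p hp hd using hch
  refine ⟨ht.toFinset.card + 1, by omega, fun F hF => ?_⟩
  refine le_trans (Finset.card_le_card_of_injOn p (fun x _ => by simpa using hp x) ?_)
    (Nat.le_succ _)
  intro y hy z hz hyz
  by_contra hne
  have h3 := hF y hy z hz hne
  have h1 := hd y
  have h2 := hd z
  rw [hyz] at h1
  have := dist_triangle_right y z (p z)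
  linarith

theorem uc [CompactSpace X] (g : X → X) (hg : Continuous g) (n : ℕ) {η' : ℝ} (h : 0 < η') :
    ∃ η > 0, ∀ k ≤ n, ∀ x y, dist x y < η → dist (g^[k] x) (g^[k] y) < η' := by
  induction n with
  | zero =>
    refine ⟨η', h, fun k hk x y hxy => ?_⟩
    obtain rfl : k = 0 := by omega
    exact hxy
  | succ n ih =>
    obtain ⟨η, hη, h1⟩ := ih
    have hu : UniformContinuous (g^[n + 1]) :=
      CompactSpace.uniformContinuous_of_continuous (hg.iterate _)
    obtain ⟨η₂, hη₂, h2⟩ := Metric.uniformContinuous_iff.mp hu η' h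
    refine ⟨min η η₂, lt_min hη hη₂, fun k hk x y hxy => ?_⟩
    rcases Nat.lt_or_ge n k with h3 | h3
    · obtain rfl : k = n + 1 := by omega
      exact h2 (hxy.trans_le (min_le_right _ _))
    · exact h1 k h3 x y (hxy.trans_le (min_le_left _ _))

theorem pw {c δ : ℝ} (hδ : 0 < δ) : ∃ j : ℕ, c * (1 / 2) ^ j ≤ δ := by
  have h5 : Tendsto (fun n : ℕ => c * (1 / 2 : ℝ) ^ n) atTop (𝓝 0) := by
    have := (tendsto_pow_atTop_nhds_zero_of_lt_one (by norm_num : (0:ℝ) ≤ 1 / 2)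
      (by norm_num)).const_mul c
    simpa using this
  obtain ⟨N, hN⟩ := eventually_atTop.mp ((tendsto_order.mp h5).2 δ hδ)
  exact ⟨N, (hN N le_rfl).le⟩

theorem pw_anti {c : ℝ} (hc : 0 < c) {i j : ℕ} (h : i ≤ j) :
    c * (1 / 2 : ℝ) ^ j ≤ c * (1 / 2) ^ i :=
  mul_le_mul_of_nonneg_left (pow_le_pow_of_le_one (by norm_num) (by norm_num) h) hc.le

theorem pw_le {c : ℝ} (hc : 0 < c) (i : ℕ) : c * (1 / 2 : ℝ) ^ i ≤ c := by
  have := pw_anti hc (Nat.zero_le i)
  simpa using this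

theorem bk (g : X ≃ₜ X) {i m : ℕ} (h : i ≤ m) (y : X) :
    g.symm^[i] (g^[m] y) = g^[m - i] y := by
  have : g^[m] y = g^[i] (g^[m - i] y) := by
    rw [← Function.iterate_add_apply]
    congr 1
    omega
  rw [this, iterL]

theorem bk' (g : X ≃ₜ X) {i m : ℕ} (h : m ≤ i) (y : X) :
    g.symm^[i] (g^[m] y) = g.symm^[i - m] y := by
  have : g.symm^[i] (g^[m] y) = g.symm^[i - m] (g.symm^[m] (g^[m] y)) := by
    rw [← Function.iterate_add_apply g.symm (i - m) m]
    congr 1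
    omega
  rw [this, iterL]

theorem fw (g : X ≃ₜ X) {i m : ℕ} (h : i ≤ m) (y : X) :
    g^[i] (g.symm^[m] y) = g.symm^[m - i] y := by
  have := bk g.symm h y
  simpa using this

theorem fw' (g : X ≃ₜ X) {i m : ℕ} (h : m ≤ i) (y : X) :
    g^[i] (g.symm^[m] y) = g^[i - m] y := by
  have := bk' g.symm h y
  simpa using this

/-- The local unstable distance at time `m` from bounds at all times `≤ m`. -/
theorem sr_of (g : X ≃ₜ X) {c : ℝ} {m : ℕ} {y z : X} (h1 : ∀ i ≤ m, dist (g^[i] y) (g^[i] z) ≤ c)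
    (h2 : SR g.symm c y z) : SR g.symm c (g^[m] y) (g^[m] z) := by
  intro i
  rcases le_total i m with h | h
  · rw [bk g h, bk g h]
    exact h1 _ (by omega)
  · rw [bk' g h, bk' g h]
    exact h2 _

theorem sr_tr {g : X ≃ₜ X} {ε ε' : ℝ} {x y z : X} (h : SR g ε x y) (h' : SR g ε' y z) :
    SR g (ε + ε') x z := fun k => by
  have := dist_triangle (g^[k] x) (g^[k] y) (g^[k] z)
  have h1 := h k
  have h2 := h' k
  linarith

/-- Pull back of the local unstable relation. -/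
theorem sr_back {g : X ≃ₜ X} {c ε : ℝ} (h : LP g c) {j : ℕ} (hj : c * (1 / 2) ^ j ≤ ε)
    {x y : X} (hxy : SR g.symm c x y) : SR g.symm ε (g.symm^[j] x) (g.symm^[j] y) := by
  intro i
  have h1 := h.cU x y hxy (i + j)
  rw [Function.iterate_add_apply, Function.iterate_add_apply] at h1
  exact h1.trans ((pw_anti h.c_pos (by omega)).trans hj)

theorem expans {g : X ≃ₜ X} {c : ℝ} (h : LP g c) {x y : X} (h1 : SR g c x y)
    (h2 : SR g.symm c x y) : x = y := by
  have h3 : ∀ m, dist x y ≤ c * (1 / 2) ^ m := by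
    intro m
    have h4 : SR g c (g.symm^[m] x) (g.symm^[m] y) := by
      intro i
      rcases le_total i m with hi | hi
      · rw [fw g hi, fw g hi]
        exact h2 _
      · rw [fw' g hi, fw' g hi]
        exact h1 _
    have h5 := h.cS _ _ h4 m
    rwa [iterR, iterR] at h5
  by_contra hne
  have h4 : 0 < dist x y / 2 := half_pos (dist_pos.mpr hne)
  obtain ⟨j, hj⟩ := pw (c := c) h4
  have := h3 j
  linarith

theorem sep_time {g : X ≃ₜ X} {c : ℝ} (h : LP g c) {ε δ δ' : ℝ} (hε : 2 * ε ≤ c) (hδ' : δ' ≤ c)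
    {j : ℕ} (hj : c * (1 / 2) ^ j ≤ δ) {n : ℕ} {x y z : X} (hy : SR g.symm ε x y)
    (hz : SR g.symm ε x z) (hd : ∀ i ≤ n + j, dist (g^[i] y) (g^[i] z) ≤ δ') :
    ∀ k ≤ n, dist (g^[k] y) (g^[k] z) ≤ δ := by
  intro k hk
  have h1 : SR g.symm c (g^[n + j] y) (g^[n + j] z) :=
    sr_of g (fun i hi => (hd i hi).trans hδ') ((sr_tr hy.symm' hz).mono (by linarith))
  have h2 := h.cU _ _ h1 (n + j - k)
  rw [bk g (by omega), bk g (by omega)] at h2
  have e : n + j - (n + j - k) = k := by omega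
  rw [e] at h2
  exact h2.trans ((pw_anti h.c_pos (by omega)).trans hj)

theorem sep_chg {g : X ≃ₜ X} {c : ℝ} (h : LP g c) {ε δ δ' : ℝ} (hε : 2 * ε ≤ c) (hδ' : δ' ≤ c)
    {j : ℕ} (hj : c * (1 / 2) ^ j ≤ δ) {n : ℕ} {x : X} {F : Finset X}
    (hF : ∀ y ∈ F, SR g.symm ε x y) (hs : Sep g δ n F) : Sep g δ' (n + j) F := by
  intro y hy z hz hne
  by_contra hcon
  push Not at hcon
  obtain ⟨k, hk, h1⟩ := hs y hy z hz hne
  have := sep_time h hε hδ' hj (hF y hy) (hF z hz) hcon k hk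
  linarith

theorem exists_max_sep {g : X ≃ₜ X} {δ : ℝ} (hδ : 0 ≤ δ) (n : ℕ) (F : Finset X) :
    ∃ F₁ ⊆ F, Sep g δ n F₁ ∧ ∀ y ∈ F, ∃ z ∈ F₁, ∀ k ≤ n, dist (g^[k] y) (g^[k] z) ≤ δ := by
  classical
  have hne : (F.powerset.filter (fun G => Sep g δ n G)).Nonempty := by
    refine ⟨∅, ?_⟩
    rw [Finset.mem_filter]
    exact ⟨Finset.empty_mem_powerset _, fun y hy => by simp at hy⟩
  obtain ⟨F₁, hF₁, hmax⟩ := Finset.exists_max_image _ Finset.card hne
  rw [Finset.mem_filter, Finset.mem_powerset] at hF₁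
  refine ⟨F₁, hF₁.1, hF₁.2, fun y hy => ?_⟩
  by_contra hcon
  push Not at hcon
  have hyF₁ : y ∉ F₁ := by
    intro h
    obtain ⟨k, -, hk⟩ := hcon y h
    rw [dist_self] at hk
    linarith
  have hins : insert y F₁ ∈ F.powerset.filter (fun G => Sep g δ n G) := by
    rw [Finset.mem_filter, Finset.mem_powerset]
    refine ⟨Finset.insert_subset hy hF₁.1, ?_⟩
    intro a ha b hb hab
    rw [Finset.mem_insert] at ha hb
    rcases ha with rfl | ha <;> rcases hb with rfl | hb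
    · exact absurd rfl hab
    · obtain ⟨k, hk, h1⟩ := hcon b hb
      exact ⟨k, hk, h1⟩
    · obtain ⟨k, hk, h1⟩ := hcon a ha
      exact ⟨k, hk, by rwa [dist_comm]⟩
    · exact hF₁.2 a ha b hb hab
  have := hmax _ hins
  rw [Finset.card_insert_of_notMem hyF₁] at this
  omega

/-- Shortening the time interval costs a bounded factor. -/
theorem sep_short [CompactSpace X] {g : X ≃ₜ X} {c : ℝ} (h : LP g c) {ε δ : ℝ} (hε : 2 * ε ≤ c)
    (hδ0 : 0 < δ) (hδ : 2 * δ ≤ c) (j : ℕ) : ∃ K : ℕ, 1 ≤ K ∧ ∀ (n : ℕ) (x : X) (F : Finset X),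
      (∀ y ∈ F, SR g.symm ε x y) → Sep g δ (n + j) F →
      ∃ F₁ ⊆ F, Sep g δ n F₁ ∧ F.card ≤ K * F₁.card := by
  classical
  obtain ⟨m, hm⟩ := pw (c := c) hδ0
  obtain ⟨η₁, hη₁, hu1⟩ := uc g g.continuous j hδ0
  obtain ⟨η₂, hη₂, hu2⟩ := uc g.symm g.symm.continuous m hδ0
  obtain ⟨K, hK1, hK⟩ := net (X := X) (lt_min hη₁ hη₂)
  refine ⟨K, hK1, fun n x F hF hs => ?_⟩
  obtain ⟨F₁, hF₁, hs₁, hmax⟩ := exists_max_sep (g := g) hδ0.le n F
  refine ⟨F₁, hF₁, hs₁, ?_⟩
  have hch : ∀ y, ∃ z, y ∈ F → z ∈ F₁ ∧ ∀ k ≤ n, dist (g^[k] y) (g^[k] z) ≤ δ := by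
    intro y
    by_cases hy : y ∈ F
    · obtain ⟨z, h1, h2⟩ := hmax y hy
      exact ⟨z, fun _ => ⟨h1, h2⟩⟩
    · exact ⟨y, fun h => absurd h hy⟩
  choose φ hφ using hch
  refine Finset.card_le_mul_card_image_of_maps_to (f := φ) (fun y hy => (hφ y hy).1) K ?_
  intro z hz
  have hinj : Function.Injective (g^[n]) := g.injective.iterate n
  rw [← Finset.card_image_of_injective _ hinj]
  apply hK
  intro a ha b hb hab
  obtain ⟨y, hy, rfl⟩ := Finset.mem_image.mp ha
  obtain ⟨y', hy', rfl⟩ := Finset.mem_image.mp hb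
  rw [Finset.mem_filter] at hy hy'
  have hne : y ≠ y' := fun e => hab (by rw [e])
  by_contra hcon
  push Not at hcon
  have hc1 := hcon.trans_le (min_le_left _ _)
  have hc2 := hcon.trans_le (min_le_right _ _)
  have hd : ∀ k ≤ n, dist (g^[k] y) (g^[k] y') ≤ c := by
    intro k hk
    have h1 := (hφ y hy.1).2 k hk
    have h2 := (hφ y' hy'.1).2 k hk
    rw [hy.2] at h1
    rw [hy'.2] at h2
    have := dist_triangle_right (g^[k] y) (g^[k] y') (g^[k] z)
    linarith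
  have hsr : SR g.symm c (g^[n] y) (g^[n] y') :=
    sr_of g hd ((sr_tr (hF y hy.1).symm' (hF y' hy'.1)).mono (by linarith))
  obtain ⟨k, hk, h3⟩ := hs y hy.1 y' hy'.1 hne
  rcases le_total k n with hkn | hkn
  · rcases le_total (n - k) m with h4 | h4
    · have := hu2 (n - k) h4 _ _ hc2
      rw [bk g (by omega), bk g (by omega)] at this
      have e : n - (n - k) = k := by omega
      rw [e] at this
      linarith
    · have := h.cU _ _ hsr (n - k)
      rw [bk g (by omega), bk g (by omega)] at this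
      have e : n - (n - k) = k := by omega
      rw [e] at this
      have := this.trans ((pw_anti h.c_pos h4).trans hm)
      linarith
  · have := hu1 (k - n) (by omega) _ _ hc1
    rw [← Function.iterate_add_apply, ← Function.iterate_add_apply] at this
    have e : k - n + n = k := by omega
    rw [e] at this
    linarith

end Pool.Agent.Y330.G
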