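import Pool.Agent.H66.L.S8.Y330.G.A1

set_option autoImplicit false

open Filter Topology Set Metric

namespace Pool.Agent.Y330.G

open Pool.Agent.H789R2.AN

variable {X : Type*} [MetricSpace X]

/-- Separated finite subsets of a local unstable set. -/
def Val (g : X ≃ₜ X) (ε δ : ℝ) (n : ℕ) (x : X) (F : Finset X) : Prop :=
  (∀ y ∈ F, SR g.symm ε x y) ∧ Sep g δ n F

/-- The maximal cardinality of a separated subset of the local unstable set of `x`. -/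
noncomputable def P (g : X ≃ₜ X) (ε δ : ℝ) (n : ℕ) (x : X) : ℕ :=
  sSup {m | ∃ F : Finset X, Val g ε δ n x F ∧ F.card = m}

/-- The maximal cardinality of a separated subset of a local unstable set. -/
noncomputable def A (g : X ≃ₜ X) (ε δ : ℝ) (n : ℕ) : ℕ :=
  sSup {m | ∃ (x : X) (F : Finset X), Val g ε δ n x F ∧ F.card = m}

theorem sep_bdd [CompactSpace X] (g : X ≃ₜ X) {δ : ℝ} (hδ : 0 < δ) (n : ℕ) :
    ∃ K : ℕ, ∀ F : Finset X, Sep g δ n F → F.card ≤ K := by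
  obtain ⟨η, hη, hu⟩ := uc g g.continuous n hδ
  obtain ⟨K, -, hK⟩ := net (X := X) hη
  refine ⟨K, fun F hF => hK F fun y hy z hz hne => ?_⟩
  obtain ⟨k, hk, h1⟩ := hF y hy z hz hne
  by_contra hcon
  push Not at hcon
  have := hu k hk y z hcon
  linarith

theorem P_le [CompactSpace X] {g : X ≃ₜ X} {ε δ : ℝ} (hδ : 0 < δ) {n : ℕ} {x : X} {F : Finset X}
    (h : Val g ε δ n x F) : F.card ≤ P g ε δ n x := by
  obtain ⟨K, hK⟩ := sep_bdd g hδ n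
  exact le_csSup ⟨K, by rintro m ⟨F, hF, rfl⟩; exact hK F hF.2⟩ ⟨F, h, rfl⟩

theorem P_att [CompactSpace X] (g : X ≃ₜ X) (ε : ℝ) {δ : ℝ} (hδ : 0 < δ) (n : ℕ) (x : X) :
    ∃ F : Finset X, Val g ε δ n x F ∧ F.card = P g ε δ n x := by
  obtain ⟨K, hK⟩ := sep_bdd g hδ n
  have h1 : P g ε δ n x ∈ {m | ∃ F : Finset X, Val g ε δ n x F ∧ F.card = m} := by
    apply Nat.sSup_mem
    · exact ⟨0, ∅, ⟨by simp, fun y hy => by simp at hy⟩, rfl⟩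
    · exact ⟨K, by rintro m ⟨F, hF, rfl⟩; exact hK F hF.2⟩
  exact h1

theorem A_le [CompactSpace X] {g : X ≃ₜ X} {ε δ : ℝ} (hδ : 0 < δ) {n : ℕ} {x : X} {F : Finset X}
    (h : Val g ε δ n x F) : F.card ≤ A g ε δ n := by
  obtain ⟨K, hK⟩ := sep_bdd g hδ n
  exact le_csSup ⟨K, by rintro m ⟨_, F, hF, rfl⟩; exact hK F hF.2⟩ ⟨x, F, h, rfl⟩

theorem A_att [CompactSpace X] [Nonempty X] (g : X ≃ₜ X) (ε : ℝ) {δ : ℝ} (hδ : 0 < δ) (n : ℕ) :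
    ∃ (x : X) (F : Finset X), Val g ε δ n x F ∧ F.card = A g ε δ n := by
  obtain ⟨K, hK⟩ := sep_bdd g hδ n
  have h1 : A g ε δ n ∈ {m | ∃ (x : X) (F : Finset X), Val g ε δ n x F ∧ F.card = m} := by
    apply Nat.sSup_mem
    · exact ⟨0, Classical.arbitrary X, ∅, ⟨by simp, fun y hy => by simp at hy⟩, rfl⟩
    · exact ⟨K, by rintro m ⟨_, F, hF, rfl⟩; exact hK F hF.2⟩
  exact h1

theorem P_le_A [CompactSpace X] {g : X ≃ₜ X} {ε δ : ℝ} (hδ : 0 < δ) (n : ℕ) (x : X) :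
    P g ε δ n x ≤ A g ε δ n := by
  obtain ⟨F, hF, h1⟩ := P_att g ε hδ n x
  rw [← h1]
  exact A_le hδ hF

theorem sr_refl (g : X ≃ₜ X) {ε : ℝ} (hε : 0 ≤ ε) (x : X) : SR g ε x x := fun k => by
  rw [dist_self]; exact hε

theorem one_le_P [CompactSpace X] (g : X ≃ₜ X) {ε δ : ℝ} (hε : 0 ≤ ε) (hδ : 0 < δ) (n : ℕ) (x : X) :
    1 ≤ P g ε δ n x := by
  classical
  have : Val g ε δ n x {x} := by
    refine ⟨fun y hy => ?_, fun y hy z hz hne => ?_⟩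
    · rw [Finset.mem_singleton] at hy
      rw [hy]
      exact sr_refl _ hε x
    · rw [Finset.mem_singleton] at hy hz
      exact absurd (hy.trans hz.symm) hne
  have h1 := P_le hδ this
  simpa using h1

theorem P_chg [CompactSpace X] {g : X ≃ₜ X} {c : ℝ} (h : LP g c) {ε δ δ' : ℝ} (hε : 2 * ε ≤ c)
    (hδ : 0 < δ) (hδ'0 : 0 < δ') (hδ' : 2 * δ' ≤ c) : ∃ K : ℕ, 1 ≤ K ∧ ∀ (n : ℕ) (x : X),
      P g ε δ n x ≤ K * P g ε δ' n x := by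
  obtain ⟨j, hj⟩ := pw (c := c) hδ
  obtain ⟨K, hK1, hK⟩ := sep_short h hε hδ'0 hδ' j
  refine ⟨K, hK1, fun n x => ?_⟩
  obtain ⟨F, hF, h1⟩ := P_att g ε hδ n x
  have h2 := sep_chg h (δ' := δ') hε (by linarith) hj hF.1 hF.2
  obtain ⟨F₁, h3, h4, h5⟩ := hK n x F hF.1 h2
  rw [← h1]
  exact h5.trans (Nat.mul_le_mul_left _ (P_le hδ'0 ⟨fun y hy => hF.1 y (h3 hy), h4⟩))

theorem P_shift [CompactSpace X] {g : X ≃ₜ X} {c : ℝ} (h : LP g c) {ε δ : ℝ} (hε : 2 * ε ≤ c)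
    (hδ : 0 < δ) (hδ' : 2 * δ ≤ c) (j : ℕ) : ∃ K : ℕ, 1 ≤ K ∧ ∀ (n : ℕ) (x : X),
      P g ε δ (n + j) x ≤ K * P g ε δ n x := by
  obtain ⟨K, hK1, hK⟩ := sep_short h hε hδ hδ' j
  refine ⟨K, hK1, fun n x => ?_⟩
  obtain ⟨F, hF, h1⟩ := P_att g ε hδ (n + j) x
  obtain ⟨F₁, h3, h4, h5⟩ := hK n x F hF.1 hF.2
  rw [← h1]
  exact h5.trans (Nat.mul_le_mul_left _ (P_le hδ ⟨fun y hy => hF.1 y (h3 hy), h4⟩))

theorem sep_back {g : X ≃ₜ X} {δ : ℝ} {n : ℕ} {F : Finset X} [DecidableEq X] (hs : Sep g δ n F)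
    (j : ℕ) : Sep g δ (n + j) (F.image (g.symm^[j])) := by
  intro a ha b hb hab
  obtain ⟨y, hy, rfl⟩ := Finset.mem_image.mp ha
  obtain ⟨z, hz, rfl⟩ := Finset.mem_image.mp hb
  obtain ⟨k, hk, h1⟩ := hs y hy z hz (fun e => hab (by rw [e]))
  refine ⟨k + j, by omega, ?_⟩
  rwa [fw' g (by omega), fw' g (by omega), Nat.add_sub_cancel]

theorem P_eps [CompactSpace X] {g : X ≃ₜ X} {c : ℝ} (h : LP g c) {ε ε' δ : ℝ} (hε : ε ≤ c)
    (hε'0 : 0 < ε') (hε' : 2 * ε' ≤ c) (hδ0 : 0 < δ) (hδ : 2 * δ ≤ c) :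
    ∃ K : ℕ, 1 ≤ K ∧ ∃ j : ℕ, ∀ (n : ℕ) (x : X),
      P g ε δ n x ≤ K * P g ε' δ n (g.symm^[j] x) := by
  classical
  obtain ⟨j, hj⟩ := pw (c := c) hε'0
  obtain ⟨K, hK1, hK⟩ := sep_short h hε' hδ0 hδ j
  refine ⟨K, hK1, j, fun n x => ?_⟩
  obtain ⟨F, hF, h1⟩ := P_att g ε hδ0 n x
  have h2 := sep_back hF.2 j
  have h3 : ∀ y ∈ F.image (g.symm^[j]), SR g.symm ε' (g.symm^[j] x) y := by
    intro y hy
    obtain ⟨z, hz, rfl⟩ := Finset.mem_image.mp hy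
    exact sr_back h hj ((hF.1 z hz).mono hε)
  obtain ⟨F₁, h4, h5, h6⟩ := hK n _ _ h3 h2
  have hinj : Function.Injective (g.symm^[j]) := g.symm.injective.iterate j
  rw [← h1, ← Finset.card_image_of_injective F hinj]
  exact h6.trans (Nat.mul_le_mul_left _ (P_le hδ0 ⟨fun y hy => h3 y (h4 hy), h5⟩))

theorem P_gen [CompactSpace X] {g : X ≃ₜ X} {c : ℝ} (h : LP g c) {ε ε' δ δ' : ℝ}
    (hε : 2 * ε ≤ c) (hε'0 : 0 < ε') (hε' : 2 * ε' ≤ c) (hδ0 : 0 < δ)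
    (hδ'0 : 0 < δ') (hδ' : 2 * δ' ≤ c) :
    ∃ K : ℕ, 1 ≤ K ∧ ∃ j : ℕ, ∀ (n : ℕ) (x : X),
      P g ε δ n x ≤ K * P g ε' δ' n (g.symm^[j] x) := by
  obtain ⟨K₁, h1, h1'⟩ := P_chg h hε hδ0 hδ'0 hδ'
  obtain ⟨K₂, h2, j, h2'⟩ := P_eps h (ε := ε) (by have := h.c_pos; linarith) hε'0 hε' hδ'0 hδ'
  refine ⟨K₁ * K₂, Nat.mul_pos h1 h2, j, fun n x => ?_⟩
  calc P g ε δ n x ≤ K₁ * P g ε δ' n x := h1' n x
    _ ≤ K₁ * (K₂ * P g ε' δ' n (g.symm^[j] x)) := Nat.mul_le_mul_left _ (h2' n x)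
    _ = _ := by ring

theorem A_gen [CompactSpace X] [Nonempty X] {g : X ≃ₜ X} {c : ℝ} (h : LP g c) {ε ε' δ δ' : ℝ}
    (hε : 2 * ε ≤ c) (hε'0 : 0 < ε') (hε' : 2 * ε' ≤ c) (hδ0 : 0 < δ)
    (hδ'0 : 0 < δ') (hδ' : 2 * δ' ≤ c) :
    ∃ K : ℕ, 1 ≤ K ∧ ∀ n : ℕ, A g ε δ n ≤ K * A g ε' δ' n := by
  obtain ⟨K, hK, j, h1⟩ := P_gen h hε hε'0 hε' hδ0 hδ'0 hδ'
  refine ⟨K, hK, fun n => ?_⟩
  obtain ⟨x, F, hF, h2⟩ := A_att g ε hδ0 n
  rw [← h2]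
  exact (P_le hδ0 hF).trans ((h1 n x).trans (Nat.mul_le_mul_left _ (P_le_A hδ'0 _ _)))

/-- Submultiplicativity. -/
theorem A_submult [CompactSpace X] [Nonempty X] {g : X ≃ₜ X} {c : ℝ} (h : LP g c) {ε δ : ℝ}
    (hε0 : 0 < ε) (hε : 4 * ε ≤ c) (hδ0 : 0 < δ) (hδ : 2 * δ ≤ c) :
    ∃ K : ℕ, 1 ≤ K ∧ ∀ n m : ℕ, A g ε δ (n + m) ≤ K * (A g ε δ n * A g ε δ m) := by
  classical
  obtain ⟨K₁, hK₁, h1⟩ := A_gen h (ε := max (2 * ε) (δ / 2)) (ε' := ε) (δ := δ) (δ' := δ)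
    (by rcases max_choice (2 * ε) (δ / 2) with e | e <;> rw [e] <;> linarith) hε0 (by linarith)
    hδ0 hδ0 hδ
  obtain ⟨K₂, hK₂, h2⟩ := A_gen h (ε := ε) (ε' := ε) (δ := δ / 2) (δ' := δ) (by linarith) hε0
    (by linarith) (by linarith) hδ0 hδ
  refine ⟨K₁ * K₂, Nat.mul_pos hK₁ hK₂, fun n m => ?_⟩
  obtain ⟨x, F, hF, h3⟩ := A_att g ε hδ0 (n + m)
  rw [← h3]
  obtain ⟨F₁, hF₁, hs₁, hmax⟩ := exists_max_sep (g := g) (half_pos hδ0).le n F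
  have hch : ∀ y, ∃ z, y ∈ F → z ∈ F₁ ∧ ∀ k ≤ n, dist (g^[k] y) (g^[k] z) ≤ δ / 2 := by
    intro y
    by_cases hy : y ∈ F
    · obtain ⟨z, h1, h2⟩ := hmax y hy
      exact ⟨z, fun _ => ⟨h1, h2⟩⟩
    · exact ⟨y, fun h => absurd h hy⟩
  choose φ hφ using hch
  have h4 : F.card ≤ A g (max (2 * ε) (δ / 2)) δ m * F₁.card := by
    refine Finset.card_le_mul_card_image_of_maps_to (f := φ) (fun y hy => (hφ y hy).1) _ ?_
    intro z hz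
    have hinj : Function.Injective (g^[n]) := g.injective.iterate n
    rw [← Finset.card_image_of_injective _ hinj]
    apply A_le hδ0 (x := g^[n] z)
    constructor
    · intro a ha
      obtain ⟨y, hy, rfl⟩ := Finset.mem_image.mp ha
      rw [Finset.mem_filter] at hy
      refine sr_of g (fun i hi => ?_) ?_
      · have h1 := (hφ y hy.1).2 i hi
        rw [hy.2] at h1
        rw [dist_comm]
        exact h1.trans (le_max_right _ _)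
      · exact (sr_tr (hF.1 z (hF₁ hz)).symm' (hF.1 y hy.1)).mono
          (by rw [← two_mul]; exact le_max_left _ _)
    · intro a ha b hb hab
      obtain ⟨y, hy, rfl⟩ := Finset.mem_image.mp ha
      obtain ⟨y', hy', rfl⟩ := Finset.mem_image.mp hb
      rw [Finset.mem_filter] at hy hy'
      have hne : y ≠ y' := fun e => hab (by rw [e])
      obtain ⟨k, hk, h5⟩ := hF.2 y hy.1 y' hy'.1 hne
      have hkn : n < k := by
        by_contra hcon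
        push Not at hcon
        have h1 := (hφ y hy.1).2 k hcon
        have h2 := (hφ y' hy'.1).2 k hcon
        rw [hy.2] at h1
        rw [hy'.2] at h2
        have := dist_triangle_right (g^[k] y) (g^[k] y') (g^[k] z)
        linarith
      refine ⟨k - n, by omega, ?_⟩
      rw [← Function.iterate_add_apply, ← Function.iterate_add_apply]
      have e : k - n + n = k := by omega
      rwa [e]
  have h5 : F₁.card ≤ A g ε (δ / 2) n :=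
    A_le (half_pos hδ0) (x := x) ⟨fun y hy => hF.1 y (hF₁ hy), hs₁⟩
  calc F.card ≤ A g (max (2 * ε) (δ / 2)) δ m * F₁.card := h4
    _ ≤ (K₁ * A g ε δ m) * (K₂ * A g ε δ n) := Nat.mul_le_mul (h1 m) (h5.trans (h2 n))
    _ = _ := by ring

end Pool.Agent.Y330.G
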